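import Pool.Agent.helper37.NF.Spec

/-! # Row LCX of the project NF (MP_7e34bc_co, Q2) -/

set_option autoImplicit false

namespace Pool.Agent.helper37.NF

open Finset Pool.Agent.NK

theorem LCX_fac (c x y : ℝ) (hc : 0 < c) (hx : 0 ≤ x) (hxy : x ≤ y) :
    (4 * x + c) / (3 * x + c) ≤ (4 * y + c) / (3 * y + c) := by
  rw [div_le_div_iff₀ (by linarith) (by linarith)]
  nlinarith [mul_le_mul_of_nonneg_left hxy hc.le]

theorem LCX_eq (x : ℝ) (hx : 0 ≤ x) : rho x =
    4 * ((4 * x + 1) / (3 * x + 1)) * ((4 * x + 2) / (3 * x + 2)) * ((4 * x + 3) / (3 * x + 3)) := by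
  unfold rho
  have h1 : 3 * x + 1 ≠ 0 := by linarith
  have h2 : 3 * x + 2 ≠ 0 := by linarith
  have h3 : 3 * x + 3 ≠ 0 := by linarith
  field_simp

theorem LCX_mono (x y : ℝ) (hx : 0 ≤ x) (hxy : x ≤ y) : rho x ≤ rho y := by
  rw [LCX_eq x hx, LCX_eq y (hx.trans hxy)]
  have a1 := LCX_fac 1 x y (by norm_num) hx hxy
  have a2 := LCX_fac 2 x y (by norm_num) hx hxy
  have a3 := LCX_fac 3 x y (by norm_num) hx hxy
  have hy : 0 ≤ y := hx.trans hxy
  have p1 : 0 ≤ (4 * x + 1) / (3 * x + 1) := by positivity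
  have p2 : 0 ≤ (4 * x + 2) / (3 * x + 2) := by positivity
  have p3 : 0 ≤ (4 * x + 3) / (3 * x + 3) := by positivity
  have q1 : 0 ≤ (4 * y + 1) / (3 * y + 1) := by positivity
  have q2 : 0 ≤ (4 * y + 2) / (3 * y + 2) := by positivity
  refine mul_le_mul (mul_le_mul (mul_le_mul_of_nonneg_left a1 (by norm_num)) a2 p2 ?_) a3 p3 ?_
  · positivity
  · positivity

theorem LCX_main (h : REC_stmt) : ∀ m j : ℕ, m + 2 ≤ j → cc (m + 2) * cc j ≤ 28 * cc (m + j) := by
  intro m
  induction m with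
  | zero =>
    intro j _
    have : cc (0 + 2) = 28 := by decide
    rw [this, Nat.zero_add]
  | succ m ih =>
    intro j hj
    have h1 := ih (j + 1) (by omega)
    have h2 : cc (m + 2 + 1) * cc j ≤ cc (m + 2) * cc (j + 1) := by
      have e1 := h (m + 2)
      have e2 := h j
      have hmono : rho ((m + 2 : ℕ) : ℝ) ≤ rho (j : ℝ) :=
        LCX_mono _ _ (Nat.cast_nonneg _) (by exact_mod_cast (by omega : m + 2 ≤ j))
      have hR : (cc (m + 2 + 1) : ℝ) * (cc j : ℝ) ≤ (cc (m + 2) : ℝ) * (cc (j + 1) : ℝ) := by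
        rw [e1, e2]
        have hnn : (0 : ℝ) ≤ (cc (m + 2) : ℝ) * (cc j : ℝ) := by positivity
        nlinarith [mul_le_mul_of_nonneg_left hmono hnn]
      exact_mod_cast hR
    have e3 : m + 1 + 2 = m + 2 + 1 := by omega
    have e4 : m + 1 + j = m + (j + 1) := by omega
    rw [e3, e4]
    exact h2.trans h1

theorem LCX (h : REC_stmt) : LCX_stmt := by
  intro i j hi hj
  rcases Nat.le_total i j with hij | hij
  · obtain ⟨m, rfl⟩ : ∃ m, i = m + 2 := ⟨i - 2, by omega⟩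
    have e : m + 2 + j - 2 = m + j := by omega
    rw [e]
    exact LCX_main h m j hij
  · obtain ⟨m, rfl⟩ : ∃ m, j = m + 2 := ⟨j - 2, by omega⟩
    have e : i + (m + 2) - 2 = m + i := by omega
    rw [e, Nat.mul_comm]
    exact LCX_main h m i hij

end Pool.Agent.helper37.NF
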